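import Mathlib
import Pool.Agent.Helper74.FB.Dense
import Pool.Agent.Helper69.OP.Pigeon

/-! # Primes with almost prime companions at the same places in several Oppermann intervals

Oppermann's intervals `(n² - n, n²)`, `(n², n² + n)` are the intervals between the consecutive numbers `⌊i² / 4⌋`.
`g k`, `k ∈ I`, are sufficiently many nonconstant polynomials with coefficients in `ℕ` (for instance `g k = x + h k`,
or `g k = h k * x`) which form an admissible family, and `k₀ ∈ I`. For a positive proportion of the `J`-tuples of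
Oppermann intervals there are `r` other polynomials and points `x j` such that for many primes `p` of any given dense
set of primes `p ≤ Y` all the numbers `x j + g k₀ (p)` are primes, and all the `x j + g k (p)` for the `r` polynomials
have at most two prime factors; all these numbers are in the `j`-th interval. -/

set_option autoImplicit false

namespace Pool.Agent.Results.MP_1e9cc8_nt.PrescribedPlaces

open Finset Polynomial

/-- `x` is strictly inside the `i`-th Oppermann interval, which is `(n ^ 2 - n, n ^ 2)` for `i = 2 n - 1` and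
`(n ^ 2, n ^ 2 + n)` for `i = 2 n` -/
def Inside (i x : ℕ) : Prop := i ^ 2 / 4 < x ∧ x < (i + 1) ^ 2 / 4

/-- the polynomials `g k`, `k ∈ I`, are different, of degrees between `1` and `D`, and for every prime `p` and every
`u` prime to `p` the numbers `g k (u)` miss a class modulo `p` -/
def Admissible (I : Finset ℕ) (g : ℕ → ℕ[X]) (D : ℕ) : Prop :=
  (∀ k ∈ I, 1 ≤ (g k).natDegree ∧ (g k).natDegree ≤ D) ∧ (∀ k ∈ I, ∀ k' ∈ I, g k = g k' → k = k') ∧
    ∀ p : ℕ, p.Prime → ∀ u : ℕ, ¬ p ∣ u → ∃ w : ℕ, ∀ k ∈ I, ¬ p ∣ w + (g k).eval u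

/-- `x > 1` has at most two prime factors, counted with multiplicity -/
def AlmostPrime (x : ℕ) : Prop := 1 < x ∧ x.primeFactorsList.length ≤ 2

open Classical in
/-- there are `r` of the polynomials `g k`, `k ≠ k₀`, and points `x j` such that for at least `Y / (log M) ^ B` of the
`p ∈ 𝒬` all the numbers `x j + g k₀ (p)` are primes and all the `x j + g k (p)` almost primes inside the Oppermann
interval `i j` -/
def Pattern {J : ℕ} (I : Finset ℕ) (k₀ : ℕ) (g : ℕ → ℕ[X]) (r B M Y : ℕ) (𝒬 : Finset ℕ) (i : Fin J → ℕ) : Prop :=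
  ∃ S ⊆ I.erase k₀, S.card = r ∧ ∃ x : Fin J → ℕ, (Y : ℝ) / Real.log M ^ B ≤
    (((𝒬.filter (fun p => ∀ j, (Inside (i j) (x j + (g k₀).eval p) ∧ (x j + (g k₀).eval p).Prime) ∧
      ∀ k ∈ S, Inside (i j) (x j + (g k).eval p) ∧ AlmostPrime (x j + (g k).eval p))).card : ℕ) : ℝ)

theorem eval_le (g : ℕ[X]) (D Y p : ℕ) (hg : g.natDegree ≤ D) (hp : p ≤ Y) (hY : 1 ≤ Y) :
    g.eval p ≤ g.eval 1 * Y ^ D := by
  rw [eval_eq_sum_range, eval_eq_sum_range, sum_mul]
  apply sum_le_sum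
  intro k hk
  rw [mem_range] at hk
  rw [one_pow, mul_one]
  refine Nat.mul_le_mul_left _ ((Nat.pow_le_pow_left hp k).trans (Nat.pow_le_pow_right hY (by omega)))

theorem map_eval (g : ℕ[X]) (p : ℕ) : (g.map (Nat.castRingHom ℤ)).eval (p : ℤ) = ((g.eval p : ℕ) : ℤ) := by
  rw [eval_map, ← Nat.coe_castRingHom, eval₂_at_apply]

open Classical in
/-- **Primes with almost prime companions at the same places in several Oppermann intervals.** -/
theorem result (J r : ℕ) (hJ : 1 ≤ J) : ∃ K B : ℕ, ∀ (I : Finset ℕ) (g : ℕ → ℕ[X]) (D : ℕ),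
    K ≤ I.card → Admissible I g D → ∀ k₀ ∈ I, ∀ c : ℝ, 0 < c → ∃ κ : ℝ, 0 < κ ∧ ∃ M₀ : ℕ, ∀ M : ℕ, M₀ ≤ M → ∀ Y : ℕ,
      Real.log M ^ B ≤ Y → (Y : ℝ) ^ D ≤ κ * M →
      ∀ 𝒬 : Finset ℕ, (∀ p ∈ 𝒬, p.Prime ∧ p ≤ Y) → c * (Y / Real.log Y) ≤ 𝒬.card →
      κ * (M : ℝ) ^ J ≤
        (({i ∈ Fintype.piFinset (fun _ : Fin J => Icc 1 M) | Pattern I k₀ g r B M Y 𝒬 i}.card : ℕ) : ℝ) := by
  obtain ⟨K, B, h1⟩ := Pool.Agent.Helper74.FB.denseJQ J r
  refine ⟨K, B + 1, fun I g D hI hadm k₀ hk₀ c hc => ?_⟩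
  obtain ⟨hdeg, hdist, hcov⟩ := hadm
  obtain ⟨A, hA⟩ : ∃ A : Fin J → ℕ → ℤ[X], A = fun _ k => (g k).map (Nat.castRingHom ℤ) := ⟨_, rfl⟩
  have hnd : ∀ j k, (A j k).natDegree = (g k).natDegree := by
    intro j k
    rw [hA]
    exact natDegree_map_eq_of_injective (RingHom.injective_nat _) _
  have hev : ∀ j k, ∀ x : ℕ, (A j k).eval (x : ℤ) = (((g k).eval x : ℕ) : ℤ) := by
    intro j k x
    rw [hA]
    exact map_eval _ _
  obtain ⟨κ₀, hκ₀, X₀, h2⟩ := h1 I hI A (fun j k hk => by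
      rw [hnd]
      exact (hdeg k hk).1) (by
      intro j k hk k' hk' heq
      rw [hA] at heq
      exact hdist k hk k' hk' (map_injective _ (RingHom.injective_nat _) heq)) (by
      intro p hp u hu j
      have hp0 : (0 : ℤ) < p := by exact_mod_cast hp.pos
      obtain ⟨v, hv⟩ : ∃ v : ℕ, (v : ℤ) = u % p := ⟨(u % p).toNat, Int.toNat_of_nonneg (Int.emod_nonneg _ hp0.ne')⟩
      have hvu : (p : ℤ) ∣ u - v := by
        rw [hv]
        exact Int.dvd_self_sub_emod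
      have hpv : ¬ p ∣ v := by
        intro hd
        have h3 : (p : ℤ) ∣ v := Int.natCast_dvd_natCast.2 hd
        exact hu (by simpa using dvd_add hvu h3)
      obtain ⟨w, hw⟩ := hcov p hp v hpv
      refine ⟨w, fun k hk hd => hw k hk ?_⟩
      have h4 : (p : ℤ) ∣ (A j k).eval u - (A j k).eval (v : ℤ) := hvu.trans (sub_dvd_eval_sub u v (A j k))
      have h5 := dvd_sub hd h4
      have e5 : (w : ℤ) + (A j k).eval u - ((A j k).eval u - (A j k).eval (v : ℤ)) =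
          ((w + (g k).eval v : ℕ) : ℤ) := by
        rw [hev]
        push_cast
        ring
      rw [e5] at h5
      exact Int.natCast_dvd_natCast.1 h5) k₀ hk₀ c hc
  obtain ⟨κ', hκ', hκ'1, M₁, h3⟩ := Pool.Agent.Helper69.OP.pigeon J hJ κ₀ hκ₀
  obtain ⟨C, hC⟩ : ∃ C : ℕ, C = ∑ k ∈ I, (g k).eval 1 := ⟨_, rfl⟩
  obtain ⟨κ, hκ⟩ : ∃ κ : ℝ, κ = min (κ' / (C + 1)) κ₀ := ⟨_, rfl⟩
  have hC0 : (0 : ℝ) ≤ C := Nat.cast_nonneg _
  have hκ0 : 0 < κ := by
    rw [hκ]
    exact lt_min (by positivity) hκ₀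
  have hκκ' : κ ≤ κ' := by
    rw [hκ]
    refine (min_le_left _ _).trans ?_
    rw [div_le_iff₀ (by positivity)]
    nlinarith
  obtain ⟨n₂, hn₂⟩ := exists_nat_ge (Real.exp (2 ^ B))
  refine ⟨κ, hκ0, X₀ + M₁ + n₂ + 20, fun M hM Y hY1 hY2 𝒬 h𝒬 hcard => ?_⟩
  have hM20 : (20 : ℝ) ≤ M := by exact_mod_cast (by omega : 20 ≤ M)
  have hlogM : 1 ≤ Real.log M := by
    have h4 : Real.exp 1 ≤ M := by
      have := Real.exp_one_lt_three
      linarith
    rw [← Real.log_exp 1]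
    exact Real.log_le_log (Real.exp_pos 1) h4
  have hY0 : (1 : ℝ) ≤ Y := le_trans (one_le_pow₀ hlogM) hY1
  have hYn : 1 ≤ Y := by exact_mod_cast hY0
  have hD1 : 1 ≤ D := le_trans (hdeg k₀ hk₀).1 (hdeg k₀ hk₀).2
  obtain ⟨X, hX⟩ : ∃ X : ℕ, X = M ^ 2 / 4 := ⟨_, rfl⟩
  have hXM : M ≤ X := by
    rw [hX, Nat.le_div_iff_mul_le (by norm_num), sq]
    exact Nat.mul_le_mul_left _ (by omega)
  have hXM2 : X ≤ M ^ 2 := by
    rw [hX]
    exact Nat.div_le_self _ _
  have hMr : (M : ℝ) ≤ X := by exact_mod_cast hXM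
  have hlogX : Real.log X ≤ 2 * Real.log M := by
    have h4 : Real.log X ≤ Real.log ((M : ℝ) ^ 2) :=
      Real.log_le_log (by linarith) (by exact_mod_cast hXM2)
    rw [Real.log_pow] at h4
    exact_mod_cast h4
  have hlogX0 : 0 < Real.log X := Real.log_pos (by linarith)
  have h2B : (2 : ℝ) ^ B ≤ Real.log M := by
    rw [Real.le_log_iff_exp_le (by linarith)]
    exact hn₂.trans (by exact_mod_cast (by omega : n₂ ≤ M))
  have hpow : Real.log X ^ B ≤ Real.log M ^ (B + 1) := by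
    calc Real.log X ^ B ≤ (2 * Real.log M) ^ B := pow_le_pow_left₀ hlogX0.le hlogX B
      _ = 2 ^ B * Real.log M ^ B := mul_pow _ _ _
      _ ≤ Real.log M * Real.log M ^ B := by gcongr
      _ = Real.log M ^ (B + 1) := by rw [pow_succ]; ring
  have hκX : κ * M ≤ κ₀ * X := by
    have : κ ≤ κ₀ := by rw [hκ]; exact min_le_right _ _
    gcongr
  have hYD : (Y : ℝ) ≤ (Y : ℝ) ^ D := by
    calc (Y : ℝ) = (Y : ℝ) ^ 1 := (pow_one _).symm
      _ ≤ (Y : ℝ) ^ D := pow_le_pow_right₀ hY0 hD1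
  have hsub : 𝒬 ⊆ (Icc 1 Y).filter Nat.Prime := by
    intro p hp
    exact mem_filter.2 ⟨mem_Icc.2 ⟨(h𝒬 p hp).1.one_lt.le, (h𝒬 p hp).2⟩, (h𝒬 p hp).1⟩
  have h4 := h2 X (by omega) Y (hpow.trans hY1) (hYD.trans (hY2.trans hκX)) (fun j k hk => by
    rw [hnd]
    exact (pow_le_pow_right₀ hY0 (hdeg k hk).2).trans (hY2.trans hκX)) 𝒬 hsub hcard
  have hL : ((C * Y ^ D : ℕ) : ℝ) ≤ κ' * M := by
    push_cast
    calc (C : ℝ) * (Y : ℝ) ^ D ≤ (C + 1) * (κ * M) := by
          gcongr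
          linarith
      _ ≤ (C + 1) * (κ' / (C + 1) * M) := by
          have : κ ≤ κ' / (C + 1) := by rw [hκ]; exact min_le_left _ _
          gcongr
      _ = κ' * M := by field_simp
  obtain ⟨Pr, hPr⟩ : ∃ Pr : (Fin J → ℕ) → Prop, Pr = fun N => ∃ P ⊆ I.erase k₀, P.card = r ∧
          (Y : ℝ) / Real.log X ^ B ≤
          ((𝒬.filter (fun p : ℕ => ∀ j, Pool.Agent.Helper74.FB.PrV ((N j : ℤ) + (A j k₀).eval (p : ℤ)) ∧
            ∀ h ∈ P, Pool.Agent.Helper74.FB.ApV 2 ((N j : ℤ) + (A j h).eval (p : ℤ)))).card : ℝ) := ⟨_, rfl⟩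
  have h5 := h3 M (by omega) (C * Y ^ D) hL Pr (by
    rw [← hX]
    refine h4.trans ?_
    rw [Nat.cast_le]
    apply card_le_card
    intro N hN
    obtain ⟨hN1, hN2, hN3⟩ := mem_filter.1 hN
    refine mem_filter.2 ⟨hN1, ?_⟩
    rw [hPr]
    exact hN3)
  refine (mul_le_mul_of_nonneg_right hκκ' (by positivity)).trans (h5.trans ?_)
  rw [Nat.cast_le]
  apply card_le_card
  intro i hi
  obtain ⟨hi1, N, hPN, hN⟩ := mem_filter.1 hi
  rw [hPr] at hPN
  obtain ⟨S, hS, hSc, hcl⟩ := hPN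
  refine mem_filter.2 ⟨hi1, S, hS, hSc, N, ?_⟩
  refine le_trans ?_ (hcl.trans ?_)
  · exact div_le_div_of_nonneg_left (by positivity) (pow_pos hlogX0 _) hpow
  · rw [Nat.cast_le]
    apply card_le_card
    intro p hp
    obtain ⟨hp1, hp2⟩ := mem_filter.1 hp
    have hle : ∀ k ∈ I, (g k).eval p ≤ C * Y ^ D := by
      intro k hk
      refine (eval_le (g k) D Y p (hdeg k hk).2 (h𝒬 p hp1).2 hYn).trans (Nat.mul_le_mul_right _ ?_)
      rw [hC]
      exact single_le_sum (f := fun k => (g k).eval 1) (fun _ _ => Nat.zero_le _) hk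
    have hNi : ∀ j, ∀ k ∈ I, Inside (i j) (N j + (g k).eval p) := by
      intro j k hk
      have hNj := hN j
      have := hle k hk
      exact ⟨by omega, by omega⟩
    have heq : ∀ j k (q : ℕ), (q : ℤ) = (N j : ℤ) + (A j k).eval (p : ℤ) → q = N j + (g k).eval p := by
      intro j k q hq2
      have : (q : ℤ) = ((N j + (g k).eval p : ℕ) : ℤ) := by
        rw [hq2, hev]
        push_cast
        ring
      exact_mod_cast this
    refine mem_filter.2 ⟨hp1, fun j => ⟨⟨hNi j k₀ hk₀, ?_⟩, fun k hk => ⟨hNi j k (mem_of_mem_erase (hS hk)), ?_⟩⟩⟩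
    · obtain ⟨q, hq, hq2⟩ := (hp2 j).1
      rw [← heq j k₀ q hq2]
      exact hq
    · obtain ⟨q, hq, hq2, hq3⟩ := (hp2 j).2 k hk
      rw [← heq j k q hq2]
      exact ⟨hq, hq3⟩

end Pool.Agent.Results.MP_1e9cc8_nt.PrescribedPlaces
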